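import Pool.Agent.helper7.UL.SpecN

set_option autoImplicit false

namespace Pool.Agent.UL

open Finset Filter

theorem NTR_sub {k : ℕ} (A : Fin k → ℤ) (y y' : ℤ) (hy : y ≤ y')
    (h : (univ.filter (fun t => 0 ≤ A t + y)).card =
      (univ.filter (fun t => 0 ≤ A t + y')).card) (t : Fin k) :
    0 ≤ A t + y ↔ 0 ≤ A t + y' := by
  have h1 : univ.filter (fun t => 0 ≤ A t + y) ⊆ univ.filter (fun t => 0 ≤ A t + y') := by
    intro t ht
    rw [mem_filter] at ht ⊢
    exact ⟨ht.1, by linarith [ht.2]⟩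
  have h2 := eq_of_subset_of_card_le h1 h.ge
  have h3 : t ∈ univ.filter (fun t => 0 ≤ A t + y) ↔ t ∈ univ.filter (fun t => 0 ≤ A t + y') := by
    rw [h2]
  rw [mem_filter, mem_filter] at h3
  exact ⟨fun h4 => (h3.1 ⟨mem_univ _, h4⟩).2, fun h4 => (h3.2 ⟨mem_univ _, h4⟩).2⟩

theorem NTR_nest {k : ℕ} (A : Fin k → ℤ) (y y' : ℤ)
    (h : (univ.filter (fun t => 0 ≤ A t + y)).card =
      (univ.filter (fun t => 0 ≤ A t + y')).card) (t : Fin k) :
    0 ≤ A t + y ↔ 0 ≤ A t + y' := by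
  rcases le_total y y' with hy | hy
  · exact NTR_sub A y y' hy h t
  · exact (NTR_sub A y' y hy h.symm t).symm

theorem NTR_growth (r C : ℕ) : ∃ k : ℕ, (k + 1) ^ r * C < 2 ^ k := by
  have h1 := tendsto_pow_const_div_const_pow_of_one_lt r (r := (2 : ℝ)) (by norm_num)
  have h2 : ∀ᶠ n : ℕ in atTop, (n : ℝ) ^ r / 2 ^ n < 1 / (2 * ((C : ℝ) + 1)) :=
    h1.eventually_lt_const (by positivity)
  obtain ⟨n, hn, hn1⟩ := (h2.and (eventually_ge_atTop 1)).exists
  obtain ⟨k, rfl⟩ : ∃ k, n = k + 1 := ⟨n - 1, by omega⟩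
  refine ⟨k, ?_⟩
  rw [div_lt_div_iff₀ (by positivity) (by positivity)] at hn
  have h3 : (((k + 1) ^ r * C : ℕ) : ℝ) < ((2 ^ k : ℕ) : ℝ) := by
    push_cast at hn ⊢
    have h4 : (2 : ℝ) ^ (k + 1) = 2 * 2 ^ k := by ring
    rw [h4] at hn
    have h5 : (0 : ℝ) ≤ ((k : ℝ) + 1) ^ r := by positivity
    nlinarith
  exact_mod_cast h3

theorem NTR : NTR_stmt := by
  classical
  rintro m n s ⟨ι, _, lam, kap, N, F, hN, hs⟩
  have hne : ∀ i, NeZero (N i) := fun i => ⟨(hN i).ne'⟩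
  obtain ⟨k, hk⟩ := NTR_growth (Fintype.card ι) (∏ i, N i)
  refine ⟨k, ?_⟩
  rintro ⟨a, b, hab⟩
  let A : ι → Fin k → ℤ := fun i t => ∑ j, lam i (Sum.inl j) * (a t j : ℤ)
  let y : ι → Set (Fin k) → ℤ := fun i S => ∑ j, lam i (Sum.inr j) * (b S j : ℤ) + kap i
  have hL : ∀ i t S, ∑ j, lam i j * ((Sum.elim (a t) (b S) : Fin m ⊕ Fin n → ℕ) j : ℤ) + kap i =
      A i t + y i S := by
    intro i t S
    rw [Fintype.sum_sum_type]
    simp only [Sum.elim_inl, Sum.elim_inr, A, y]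
    ring
  let Φ : Set (Fin k) → ((i : ι) → Fin (k + 1) × ZMod (N i)) := fun S i =>
    (⟨(univ.filter (fun t => 0 ≤ A i t + y i S)).card,
      Nat.lt_succ_of_le ((card_le_univ _).trans (le_of_eq (Fintype.card_fin k)))⟩,
      ((y i S : ℤ) : ZMod (N i)))
  have hinj : Function.Injective Φ := by
    intro S S' hSS
    ext t
    rw [← hab t S, ← hab t S', hs, hs]
    have h1 : (fun i => (decide (0 ≤ ∑ j, lam i j *
          ((Sum.elim (a t) (b S) : Fin m ⊕ Fin n → ℕ) j : ℤ) + kap i),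
        (∑ j, lam i j * ((Sum.elim (a t) (b S) : Fin m ⊕ Fin n → ℕ) j : ℤ) + kap i) % (N i : ℤ))) =
        (fun i => (decide (0 ≤ ∑ j, lam i j *
          ((Sum.elim (a t) (b S') : Fin m ⊕ Fin n → ℕ) j : ℤ) + kap i),
        (∑ j, lam i j * ((Sum.elim (a t) (b S') : Fin m ⊕ Fin n → ℕ) j : ℤ) + kap i) %
          (N i : ℤ))) := by
      funext i
      rw [hL, hL]
      have h2 := congrFun hSS i
      have h3 : (univ.filter (fun t => 0 ≤ A i t + y i S)).card =
          (univ.filter (fun t => 0 ≤ A i t + y i S')).card :=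
        congrArg (fun z : Fin (k + 1) × ZMod (N i) => (z.1 : ℕ)) h2
      have h4 : ((y i S : ℤ) : ZMod (N i)) = ((y i S' : ℤ) : ZMod (N i)) :=
        congrArg Prod.snd h2
      have h5 : y i S ≡ y i S' [ZMOD (N i : ℤ)] := (ZMod.intCast_eq_intCast_iff _ _ _).1 h4
      have h6 : (A i t + y i S) % (N i : ℤ) = (A i t + y i S') % (N i : ℤ) := h5.add_left (A i t)
      have h7 := NTR_nest (A i) (y i S) (y i S') h3 t
      rw [h6]
      simp only [h7]
    rw [h1]
  have hcard := Fintype.card_le_of_injective Φ hinj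
  rw [Fintype.card_set, Fintype.card_fin, Fintype.card_pi] at hcard
  have h8 : ∏ i, Fintype.card (Fin (k + 1) × ZMod (N i)) =
      (k + 1) ^ (Fintype.card ι) * ∏ i, N i := by
    rw [← Finset.card_univ, ← Finset.prod_const, ← Finset.prod_mul_distrib]
    refine Finset.prod_congr rfl (fun i _ => ?_)
    rw [Fintype.card_prod, Fintype.card_fin, ZMod.card]
  rw [h8] at hcard
  omega

end Pool.Agent.UL
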